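import Pool.Agent.V1193.PG.E
import Pool.Agent.V1193.BP.P
import Pool.Agent.H19P.QA

set_option autoImplicit false

/-! The negative Pell equation with the square of the unit as a base. -/

namespace Pool.Agent.V1193.PG

open Finset MeasureTheory Filter Topology
open Pool.Agent.V1193.PE (Dio Hoh)
open Pool.Agent.V1193.BP.Pell (H R Sol T T_H sol_iff H_inj H_pos one_lt_al al_add al_mul sq2 sq2_pos)

/-- the square of the unit -/
noncomputable def al2 : ℝ := (1 + Real.sqrt 2) ^ 2

lemma al2_gt : 1 < al2 := one_lt_pow₀ one_lt_al (by norm_num)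

theorem dio2 : Dio al2 := by
  intro h a b hh ha hb
  have h1 := Pool.Agent.H19P.dio_unit one_lt_al al_add al_mul (2 * h) a b (by omega) ha hb
  unfold al2
  rw [← pow_mul]
  simpa using h1

/-- the solutions -/
theorem value2 (k : ℕ) : Nq 0 al2 ((1 + Real.sqrt 2) / 2) k = H (2 * k + 1) := by
  have h1 := T_H (2 * k + 1)
  unfold T at h1
  have e : (1 + Real.sqrt 2) / 2 * al2 ^ k = 1 / 2 * (1 + Real.sqrt 2) ^ (2 * k + 1) := by
    unfold al2
    rw [← pow_mul, pow_succ]
    ring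
  have hs1 : 1 < Real.sqrt 2 := by
    rw [Real.lt_sqrt (by norm_num)]; norm_num
  have hs2 : Real.sqrt 2 < 2 := by
    rw [Real.sqrt_lt' (by norm_num)]; norm_num
  have hneg : (1 - Real.sqrt 2) ^ (2 * k + 1) < 0 := Odd.pow_neg ⟨k, rfl⟩ (by linarith)
  have hgt : -1 < (1 - Real.sqrt 2) ^ (2 * k + 1) := by
    have h2 : |1 - Real.sqrt 2| < 1 := by rw [abs_lt]; constructor <;> linarith
    have h3 : |(1 - Real.sqrt 2) ^ (2 * k + 1)| < 1 := by
      rw [abs_pow]
      exact pow_lt_one₀ (abs_nonneg _) h2 (by omega)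
    exact (abs_lt.1 h3).1
  have hc : ⌈(1 + Real.sqrt 2) / 2 * al2 ^ k⌉₊ = H (2 * k + 1) + 1 := by
    rw [Nat.ceil_eq_iff (by omega), e]
    constructor
    · simp only [Nat.add_sub_cancel]
      linarith
    · push_cast
      linarith
  unfold Nq
  rw [hc]
  omega

/-- the first question in terms of exponents -/
theorem question2 : {p : ℕ | p.Prime ∧ ∃ r : ℕ, Sol p r}.Infinite ↔
    (NQ 0 al2 ((1 + Real.sqrt 2) / 2)).Infinite := by
  have hset : {p : ℕ | p.Prime ∧ ∃ r : ℕ, Sol p r} =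
      (fun k => H (2 * k + 1)) '' (NQ 0 al2 ((1 + Real.sqrt 2) / 2)) := by
    ext p
    constructor
    · rintro ⟨hp, r, hr⟩
      obtain ⟨k, hk, _⟩ := (sol_iff p r).1 hr
      refine ⟨k, ?_, hk.symm⟩
      show (Nq 0 al2 ((1 + Real.sqrt 2) / 2) k).Prime
      rw [value2, ← hk]
      exact hp
    · rintro ⟨k, hk, rfl⟩
      have h1 : (Nq 0 al2 ((1 + Real.sqrt 2) / 2) k).Prime := hk
      rw [value2] at h1
      exact ⟨h1, R (2 * k + 1), (sol_iff _ _).2 ⟨k, rfl, rfl⟩⟩
  have hinj : Function.Injective fun k => H (2 * k + 1) := by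
    intro m n h
    have := H_inj (by omega) (by omega) h
    omega
  rw [hset, Set.infinite_image_iff hinj.injOn]

end Pool.Agent.V1193.PG
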