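import Pool.Agent.V1193.PG.F
import Pool.Agent.V1193.PE.J

set_option autoImplicit false

/-! The Pell numbers of odd index with the square of the unit as a base. -/

namespace Pool.Agent.V1193.PG

open Finset MeasureTheory Filter Topology
open Pool.Agent.V1193.PE (Dio Nn NP)
open Pool.Agent.V1193.BP.Pell (H R T T_R R_pos H_succ two_steps H_pos sq2 sq2_pos)

/-- the Pell numbers of odd index -/
theorem value3 (k : ℕ) : Nn 0 al2 ((1 + Real.sqrt 2) / (2 * Real.sqrt 2)) k = R (2 * k + 1) := by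
  have h1 := T_R (2 * k + 1)
  unfold T at h1
  have hs0 := sq2_pos
  have e : (1 + Real.sqrt 2) / (2 * Real.sqrt 2) * al2 ^ k =
      1 / (2 * Real.sqrt 2) * (1 + Real.sqrt 2) ^ (2 * k + 1) := by
    unfold al2
    rw [← pow_mul, pow_succ]
    ring
  have hs1 : 1 < Real.sqrt 2 := by
    rw [Real.lt_sqrt (by norm_num)]; norm_num
  have hs2 : Real.sqrt 2 < 2 := by
    rw [Real.sqrt_lt' (by norm_num)]; norm_num
  have hneg : (1 - Real.sqrt 2) ^ (2 * k + 1) < 0 := Odd.pow_neg ⟨k, rfl⟩ (by linarith)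
  have hgt : -1 < (1 - Real.sqrt 2) ^ (2 * k + 1) := by
    have h2 : |1 - Real.sqrt 2| < 1 := by rw [abs_lt]; constructor <;> linarith
    have h3 : |(1 - Real.sqrt 2) ^ (2 * k + 1)| < 1 := by
      rw [abs_pow]
      exact pow_lt_one₀ (abs_nonneg _) h2 (by omega)
    exact (abs_lt.1 h3).1
  have hpos : 0 < R (2 * k + 1) := R_pos (2 * k)
  have hq0 : 0 < 1 / (2 * Real.sqrt 2) := by positivity
  have hq1 : 1 / (2 * Real.sqrt 2) < 1 := by
    rw [div_lt_one (by positivity)]
    linarith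
  have h5 : 1 / (2 * Real.sqrt 2) * (1 + Real.sqrt 2) ^ (2 * k + 1) =
      (R (2 * k + 1) : ℝ) + 1 / (2 * Real.sqrt 2) * (1 - Real.sqrt 2) ^ (2 * k + 1) := by
    linarith
  have hlo : -1 < 1 / (2 * Real.sqrt 2) * (1 - Real.sqrt 2) ^ (2 * k + 1) := by nlinarith
  have hhi : 1 / (2 * Real.sqrt 2) * (1 - Real.sqrt 2) ^ (2 * k + 1) < 0 :=
    mul_neg_of_pos_of_neg hq0 hneg
  unfold Nn
  rw [add_zero, Nat.ceil_eq_iff (by omega), e, h5]
  constructor
  · rw [Nat.cast_sub (by omega)]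
    push_cast
    linarith
  · linarith

/-- the Pell numbers of even index -/
lemma R_even (k : ℕ) : H (2 * k) = H k ^ 2 + 2 * R k ^ 2 ∧ R (2 * k) = 2 * (R k * H k) := by
  induction k with
  | zero => exact ⟨rfl, rfl⟩
  | succ k ih =>
    obtain ⟨h1, h2⟩ := two_steps (2 * k)
    obtain ⟨h3, h4⟩ := H_succ k
    rw [show 2 * (k + 1) = 2 * k + 2 by ring, h1, h2, h3, h4, ih.1, ih.2]
    constructor <;> ring

lemma even_prime {n : ℕ} (he : Even n) (h : (R n).Prime) : n = 2 := by
  obtain ⟨k, hk⟩ := he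
  rw [← two_mul] at hk
  subst hk
  rw [(R_even k).2] at h
  by_contra hne
  rcases Nat.eq_zero_or_pos k with h0 | h0
  · subst h0
    exact absurd h (by norm_num [R])
  · have hk2 : 2 ≤ k := by omega
    obtain ⟨m, rfl⟩ : ∃ m, k = m + 2 := ⟨k - 2, by omega⟩
    have h1 : 2 ≤ R (m + 2) := by
      rw [(two_steps m).2]
      have := H_pos m
      omega
    have h2 := H_pos (m + 2)
    have h3 : 2 ≤ R (m + 2) * H (m + 2) := by nlinarith
    exact Nat.not_prime_mul (by norm_num) (by omega) h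

/-- the question in terms of odd indices -/
theorem question3 : {n : ℕ | (R n).Prime}.Infinite ↔
    (NP 0 al2 ((1 + Real.sqrt 2) / (2 * Real.sqrt 2))).Infinite := by
  have hmem : ∀ k, k ∈ NP 0 al2 ((1 + Real.sqrt 2) / (2 * Real.sqrt 2)) ↔ (R (2 * k + 1)).Prime := by
    intro k
    show (Nn 0 al2 ((1 + Real.sqrt 2) / (2 * Real.sqrt 2)) k).Prime ↔ _
    rw [value3]
  constructor
  · intro h hf
    refine h (((hf.image (fun k => 2 * k + 1)).union (Set.finite_singleton 2)).subset ?_)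
    intro n hn
    rcases Nat.even_or_odd n with he | ho
    · exact Or.inr (even_prime he hn)
    · obtain ⟨k, hk⟩ := ho
      refine Or.inl ⟨k, (hmem k).2 ?_, hk.symm⟩
      rw [← hk]
      exact hn
  · intro h hf
    refine h ((hf.preimage (f := fun k => 2 * k + 1) ?_).subset fun k hk => (hmem k).1 hk)
    intro a _ b _ hab
    simp only at hab
    omega

end Pool.Agent.V1193.PG
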