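import Pool.Agent.V1193.PE.N
import Pool.Agent.V1193.PE.L
import Pool.Agent.V1193.PE.M

set_option autoImplicit false

/-! A block of indices contains a prime value with positive probability, in small windows. -/

namespace Pool.Agent.V1193.PG

open Finset MeasureTheory Filter Topology
open Pool.Agent.W66 (NN_bounds)
open Pool.Agent.V1193.PE (Dio Pd Pd01 Pd_int Pd_nonneg measurable_Pd pf_ysh near_prime_u Hoh mass_low bonf)
open Pool.Agent.W66X (ysh measurable_ysh)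
open Pool.Agent.H305R2 (NN measurable_NN mem_Ioc_log)

/-- near pairs of indices in exponentially small windows -/
theorem pair_u {α : ℝ} (hα : 1 < α) (hdio : Dio α) (d : ℕ) :
    ∃ K κ1 : ℝ, 0 < K ∧ 0 < κ1 ∧ ∀ b0 : ℝ, ∃ P : ℕ, ∀ p ≥ P, ∀ q : ℕ, p < q → q ≤ 2 * p →
      ∀ s Λ : ℝ, Real.exp (-(κ1 * p)) ≤ Λ → b0 ≤ s → s + Λ ≤ b0 + 1 →
      ∫ t in Set.Ioc s (s + Λ), Pd d (p * Real.log α + t) * Pd d (q * Real.log α + t) ≤
        K * Λ * (1 / (p : ℝ)) ^ 2 := by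
  have hα0 : 0 < α := by linarith
  obtain ⟨K, κ1, hK, hκ1, h⟩ := near_prime_u (κ := 1) (C := ((d : ℕ) : ℝ)) (A := 1) hα zero_le_one hα
    (g := fun _ => ((d : ℕ) : ℝ)) (fun p => by
      rw [one_pow, mul_one, abs_of_nonneg (Nat.cast_nonneg _)]) le_rfl hα hdio
  refine ⟨K, κ1, hK, hκ1, fun b0 => ?_⟩
  obtain ⟨P, hP⟩ := h b0
  refine ⟨P, fun p hp q hpq hq s Λ h1 h2 h3 => ?_⟩
  have h6 := hP p hp q hpq hq s Λ h1 h2 h3
  simp only [pf_ysh hα0] at h6
  exact h6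

/-- **A block contains a prime value with positive probability in every small window.** -/
theorem block {α : ℝ} (hα : 1 < α) (hdio : Dio α) (hoh : Hoh) (c : ℕ) :
    ∃ κ q : ℝ, 0 < κ ∧ 0 < q ∧ ∀ b0 : ℝ, ∃ M0 : ℕ, ∀ M ≥ M0, ∀ s Λ : ℝ,
      Real.exp (-(κ * M)) ≤ Λ → b0 ≤ s → s + Λ ≤ b0 + 1 →
      2 * q * Λ ≤ volume.real {t | t ∈ Set.Ioc s (s + Λ) ∧
        ∃ m ∈ Finset.Ico M (2 * M), Pd c (m * Real.log α + t) = 1} := by
  set x := Real.log α with hx
  have hx0 : 0 < x := Real.log_pos hα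
  obtain ⟨K, κ1, hK, hκ1, hpair⟩ := pair_u hα hdio c
  obtain ⟨κ2, η, hκ2, hη, hmass⟩ := mass_low hoh c
  obtain ⟨r, hr⟩ := exists_nat_gt (8 * x * K / η + 1)
  have hr1 : (1 : ℝ) < r := by
    have : 0 < 8 * x * K / η := by positivity
    linarith
  have hr0 : (0 : ℝ) < r := by linarith
  have hrn : 1 ≤ r := by exact_mod_cast hr1.le
  refine ⟨min κ1 (κ2 * x / 2), η / (32 * x * r), lt_min hκ1 (by positivity), by positivity,
    fun b0 => ?_⟩
  obtain ⟨P, hP⟩ := hpair b0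
  obtain ⟨U, hU⟩ := eventually_atTop.1 hmass
  have t1 : ∀ᶠ M : ℕ in atTop, 2 * (|b0| + 1) / x ≤ (M : ℝ) :=
    tendsto_natCast_atTop_atTop.eventually_ge_atTop _
  have t2 : ∀ᶠ M : ℕ in atTop, 2 * |U| / x ≤ (M : ℝ) :=
    tendsto_natCast_atTop_atTop.eventually_ge_atTop _
  obtain ⟨M0, hM0⟩ := eventually_atTop.1 (t1.and (t2.and ((eventually_ge_atTop P).and
    ((eventually_ge_atTop (2 * r)).and (eventually_ge_atTop 1)))))
  refine ⟨M0, fun M hM s Λ hΛe hs0 hs1 => ?_⟩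
  obtain ⟨m1, m2, m3, m4, m5⟩ := hM0 M hM
  have hΛ : 0 < Λ := lt_of_lt_of_le (Real.exp_pos _) hΛe
  have hΛ1 : Λ ≤ 1 := by linarith
  have hM1 : (1 : ℝ) ≤ M := by exact_mod_cast m5
  have hMr : (0 : ℝ) < M := by linarith
  rw [div_le_iff₀ hx0] at m1 m2
  set B := Finset.Ico M (M + M / r) with hB
  have hBM : ∀ m ∈ B, M ≤ m ∧ m < 2 * M := by
    intro m hm
    rw [hB, Finset.mem_Ico] at hm
    have : M / r ≤ M := Nat.div_le_self _ _
    omega
  have hcard : B.card = M / r := by rw [hB, Nat.card_Ico, Nat.add_sub_cancel_left]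
  have hcu : ((M / r : ℕ) : ℝ) ≤ M / r := Nat.cast_div_le
  have hcl : (M : ℝ) / (2 * r) ≤ ((M / r : ℕ) : ℝ) := by
    have h1 : (M : ℝ) < (M / r : ℕ) * r + r := by
      have := Nat.lt_div_mul_add (a := M) (b := r) (by omega)
      exact_mod_cast this
    have h2 : (2 * r : ℝ) ≤ M := by exact_mod_cast m4
    rw [div_le_iff₀ (by positivity)]
    nlinarith
  have hms : ∀ m ∈ B, (M : ℝ) * x / 2 ≤ m * x + s ∧ m * x + s ≤ 4 * x * M := by
    intro m hm
    obtain ⟨g1, g2⟩ := hBM m hm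
    have g1' : (M : ℝ) ≤ m := by exact_mod_cast g1
    have g2' : (m : ℝ) ≤ 2 * M := by exact_mod_cast g2.le
    have := neg_abs_le b0
    have := le_abs_self b0
    constructor <;> nlinarith
  have hone : ∀ m ∈ B, η * Λ / (4 * x * M) ≤
      ∫ t in Set.Ioc s (s + Λ), Pd c (m * x + t) := by
    intro m hm
    obtain ⟨g1, g2⟩ := hms m hm
    rw [Pool.Agent.V1193.BP.shift_int (fun t => Pd c t) (by linarith), ← add_assoc]
    have hU' : U ≤ m * x + s := by
      have := le_abs_self U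
      linarith
    refine le_trans ?_ (hU (m * x + s) hU' Λ ?_ hΛ1)
    · have : 0 < m * x + s := lt_of_lt_of_le (by positivity) g1
      exact div_le_div_of_nonneg_left (by positivity) this g2
    · refine le_trans (Real.exp_le_exp.2 ?_) hΛe
      have h1 : min κ1 (κ2 * x / 2) ≤ κ2 * x / 2 := min_le_right _ _
      have h2 : κ2 * (M * x / 2) ≤ κ2 * (m * x + s) := mul_le_mul_of_nonneg_left g1 hκ2.le
      have h3 : min κ1 (κ2 * x / 2) * M ≤ κ2 * x / 2 * M := mul_le_mul_of_nonneg_right h1 hMr.le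
      nlinarith
  have htwo' : ∀ m ∈ B, ∀ n ∈ B, m < n →
      ∫ t in Set.Ioc s (s + Λ), Pd c (m * x + t) * Pd c (n * x + t) ≤
        K * Λ * (1 / (M : ℝ)) ^ 2 := by
    intro m hm n hn hmn
    obtain ⟨g1, g2⟩ := hBM m hm
    obtain ⟨g3, g4⟩ := hBM n hn
    have g1' : (M : ℝ) ≤ m := by exact_mod_cast g1
    refine (hP m (by omega) n hmn (by omega) s Λ ?_ hs0 hs1).trans ?_
    · refine le_trans (Real.exp_le_exp.2 ?_) hΛe
      have h1 : min κ1 (κ2 * x / 2) ≤ κ1 := min_le_left _ _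
      have h3 : min κ1 (κ2 * x / 2) * M ≤ κ1 * M := mul_le_mul_of_nonneg_right h1 hMr.le
      have h4 : κ1 * M ≤ κ1 * m := mul_le_mul_of_nonneg_left g1' hκ1.le
      linarith
    · refine mul_le_mul_of_nonneg_left ?_ (by positivity)
      refine pow_le_pow_left₀ (by positivity) ?_ 2
      exact one_div_le_one_div_of_le hMr g1'
  have htwo : ∀ m ∈ B, ∀ n ∈ B, m ≠ n →
      ∫ t in Set.Ioc s (s + Λ), Pd c (m * x + t) * Pd c (n * x + t) ≤
        K * Λ * (1 / (M : ℝ)) ^ 2 := by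
    intro m hm n hn hmn
    rcases lt_or_gt_of_ne hmn with h | h
    · exact htwo' m hm n hn h
    · have e : ∫ t in Set.Ioc s (s + Λ), Pd c (m * x + t) * Pd c (n * x + t) =
          ∫ t in Set.Ioc s (s + Λ), Pd c (n * x + t) * Pd c (m * x + t) :=
        integral_congr_ae (Eventually.of_forall fun t => mul_comm _ _)
      rw [e]
      exact htwo' n hn m hm h
  have hb := bonf B (fun (m : ℕ) t => Pd c (m * x + t))
    (fun m => (measurable_Pd _).comp (by fun_prop)) (fun m t => Pd01 _ _)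
    (b := K * Λ * (1 / (M : ℝ)) ^ 2) (by positivity) hone htwo
  have hmono : volume.real {t | t ∈ Set.Ioc s (s + Λ) ∧ ∃ i ∈ B, Pd c (i * x + t) = 1} ≤
      volume.real {t | t ∈ Set.Ioc s (s + Λ) ∧
        ∃ m ∈ Finset.Ico M (2 * M), Pd c (m * x + t) = 1} := by
    refine measureReal_mono ?_ ?_
    · rintro t ⟨h1, i, h2, h3⟩
      exact ⟨h1, i, Finset.mem_Ico.2 (hBM i h2), h3⟩
    · refine ne_top_of_le_ne_top (b := volume (Set.Ioc s (s + Λ))) (by simp) (measure_mono fun t ht => ht.1)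
  refine le_trans ?_ (hb.trans hmono)
  rw [hcard]
  set k : ℝ := ((M / r : ℕ) : ℝ) with hk
  have hk0 : 0 ≤ k := Nat.cast_nonneg _
  have a1 : (M : ℝ) / (2 * r) * (η * Λ / (4 * x * M)) ≤ k * (η * Λ / (4 * x * M)) :=
    mul_le_mul_of_nonneg_right hcl (by positivity)
  have a2 : k ^ 2 * (K * Λ * (1 / (M : ℝ)) ^ 2) ≤ (M / r) ^ 2 * (K * Λ * (1 / (M : ℝ)) ^ 2) :=
    mul_le_mul_of_nonneg_right (pow_le_pow_left₀ hk0 hcu 2) (by positivity)
  have e1 : (M : ℝ) / (2 * r) * (η * Λ / (4 * x * M)) = η * Λ / (8 * x * r) := by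
    field_simp; norm_num
  have e2 : ((M : ℝ) / r) ^ 2 * (K * Λ * (1 / (M : ℝ)) ^ 2) = K * Λ / r ^ 2 := by
    field_simp
  have a3 : K * Λ / r ^ 2 ≤ η * Λ / (8 * x * r) := by
    have h1 : 8 * x * K / η < r := by linarith
    rw [div_lt_iff₀ hη] at h1
    rw [div_le_div_iff₀ (by positivity) (by positivity)]
    have h2 : 0 < Λ * r := by positivity
    nlinarith
  have e3 : 2 * (η / (32 * x * r)) * Λ = η * Λ / (8 * x * r) / 2 := by
    field_simp; norm_num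
  rw [e3]
  linarith

end Pool.Agent.V1193.PG
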