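import Pool.Agent.V1193.PE.O
import Pool.Agent.V1193.PG.A
import Pool.Agent.V60.LD.Dev

set_option autoImplicit false

/-! The digits of the logarithm of the amplitude, and the number of prime values. -/

namespace Pool.Agent.V1193.PG

open Finset MeasureTheory Filter Topology
open Pool.Agent.W66 (NN_bounds)
open Pool.Agent.V1193.PE (Pd Pd01 Pd_int Pd_nonneg measurable_Pd jump')
open Pool.Agent.H305R2 (NN measurable_NN mem_Ioc_log)

open Classical in
/-- `1` if some index in the block has a prime value for the whole window -/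
noncomputable def Zb (c : ℕ) (x T : ℝ) (M L a : ℕ) : ℝ :=
  if ∃ m ∈ Finset.Ico M (2 * M), ∀ t ∈ Set.Ico ((a : ℝ) / 2 ^ L) (((a : ℝ) + 1) / 2 ^ L),
    Pd c (m * x + (t - T)) = 1 then 1 else 0

lemma Zb_nonneg (c : ℕ) (x T : ℝ) (M L a : ℕ) : 0 ≤ Zb c x T M L a := by
  unfold Zb; split_ifs <;> norm_num

lemma Zb_le (c : ℕ) (x T : ℝ) (M L a : ℕ) : Zb c x T M L a ≤ 1 := by
  unfold Zb; split_ifs <;> norm_num

/-- one step of the digits -/
theorem step {x T : ℝ} (hx : 0 < x) (hT : 0 ≤ T) {c M l L u a' : ℕ} (hlL : l ≤ L)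
    (ha2 : a' < (u + 1) * 2 ^ l) {q : ℝ}
    (hq : 2 * q * (1 / 2 ^ l) ≤ volume.real {y : ℝ | y ∈ Set.Ioc ((a' : ℝ) / 2 ^ l - T)
      ((a' : ℝ) / 2 ^ l - T + 1 / 2 ^ l) ∧ ∃ m ∈ Finset.Ico M (2 * M), Pd c (m * x + y) = 1})
    (hbig : 2 * M * (Real.exp (2 * M * x + u + 1) + 1) ≤ q * 2 ^ (L - l)) :
    q * (2 : ℝ) ^ (L - l) ≤
      ∑ a ∈ Ico (a' * 2 ^ (L - l)) ((a' + 1) * 2 ^ (L - l)), Zb c x T M L a := by
  classical
  set s : ℝ := (a' : ℝ) / 2 ^ l - T with hs
  set B := Finset.Ico M (2 * M) with hB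
  set I := Ico (a' * 2 ^ (L - l)) ((a' + 1) * 2 ^ (L - l)) with hI
  set A := I.filter (fun a => Zb c x T M L a = 1) with hA
  set w : ℝ := 2 * M * x + u + 1 with hw
  set Nm := ⌊Real.exp w⌋₊ with hNm
  have h2l : (0 : ℝ) < 2 ^ l := by positivity
  have h2L : (0 : ℝ) < 2 ^ L := by positivity
  have hpow : (2 : ℝ) ^ L = 2 ^ l * 2 ^ (L - l) := by rw [← pow_add, Nat.add_sub_cancel' hlL]
  have htop : ((a' : ℝ) + 1) / 2 ^ l ≤ u + 1 := by
    rw [div_le_iff₀ h2l]
    exact_mod_cast ha2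
  have hsub : {y : ℝ | y ∈ Set.Ioc s (s + 1 / 2 ^ l) ∧ ∃ m ∈ B, Pd c (m * x + y) = 1} ⊆
      ((⋃ a ∈ A, Set.Ico ((a : ℝ) / 2 ^ L - T) (((a : ℝ) + 1) / 2 ^ L - T)) ∪ {s + 1 / 2 ^ l}) ∪
      ⋃ m ∈ B, ⋃ N ∈ Finset.range (Nm + 1), Set.Icc (Real.log (N : ℝ) - m * x - 1 / 2 ^ L)
        (Real.log (N : ℝ) - m * x + 1 / 2 ^ L) := by
    rintro y ⟨hy, m, hm, hpd⟩
    by_cases hye : y = s + 1 / 2 ^ l
    · exact Or.inl (Or.inr hye)
    have hylt : y < s + 1 / 2 ^ l := lt_of_le_of_ne hy.2 hye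
    set t := y + T with ht
    have ht1 : (a' : ℝ) / 2 ^ l ≤ t := by linarith [hy.1]
    have ht2 : t < ((a' : ℝ) + 1) / 2 ^ l := by rw [add_div]; linarith
    have ht0 : 0 ≤ t := le_trans (by positivity) ht1
    set a := ⌊t * 2 ^ L⌋₊ with ha
    have hal : (a : ℝ) ≤ t * 2 ^ L := Nat.floor_le (by positivity)
    have hau : t * 2 ^ L < a + 1 := Nat.lt_floor_add_one _
    have htI : t ∈ Set.Ico ((a : ℝ) / 2 ^ L) (((a : ℝ) + 1) / 2 ^ L) := by
      constructor
      · rwa [div_le_iff₀ h2L]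
      · rwa [lt_div_iff₀ h2L]
    have haI : a ∈ I := by
      rw [hI, Finset.mem_Ico]
      constructor
      · refine Nat.le_floor ?_
        push_cast
        rw [div_le_iff₀ h2l] at ht1
        calc (a' : ℝ) * 2 ^ (L - l) ≤ t * 2 ^ l * 2 ^ (L - l) :=
              mul_le_mul_of_nonneg_right ht1 (by positivity)
          _ = t * 2 ^ L := by rw [hpow]; ring
      · rw [ha, Nat.floor_lt (by positivity)]
        push_cast
        rw [lt_div_iff₀ h2l] at ht2
        calc t * 2 ^ L = t * 2 ^ l * 2 ^ (L - l) := by rw [hpow]; ring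
          _ < ((a' : ℝ) + 1) * 2 ^ (L - l) := mul_lt_mul_of_pos_right ht2 (by positivity)
    by_cases hZ : Zb c x T M L a = 1
    · refine Or.inl (Or.inl ?_)
      rw [Set.mem_iUnion₂]
      exact ⟨a, by rw [hA, Finset.mem_filter]; exact ⟨haI, hZ⟩, by linarith [htI.1], by linarith [htI.2]⟩
    · refine Or.inr ?_
      have hno : ¬ ∃ m ∈ Finset.Ico M (2 * M), ∀ t ∈ Set.Ico ((a : ℝ) / 2 ^ L) (((a : ℝ) + 1) / 2 ^ L),
          Pd c (m * x + (t - T)) = 1 := by
        intro hc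
        exact hZ (by unfold Zb; rw [if_pos hc])
      push Not at hno
      obtain ⟨t', ht', hne⟩ := hno m hm
      have hNN : NN (m * x + y) ≠ NN (m * x + (t' - T)) := by
        intro he
        apply hne
        rw [← hpd]
        unfold Pd
        rw [he]
      have hm2 : (m : ℝ) ≤ 2 * M := by
        rw [hB, Finset.mem_Ico] at hm
        exact_mod_cast hm.2.le
      have hmx : (m : ℝ) * x ≤ 2 * M * x := mul_le_mul_of_nonneg_right hm2 hx.le
      have hatop : ((a : ℝ) + 1) / 2 ^ L ≤ u + 1 := by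
        refine le_trans ?_ htop
        rw [hI, Finset.mem_Ico] at haI
        have h5 : (a : ℝ) + 1 ≤ ((a' : ℝ) + 1) * 2 ^ (L - l) := by exact_mod_cast haI.2
        rw [hpow, div_le_div_iff₀ (by positivity) h2l]
        nlinarith
      have hd : |(m * x + y) - (m * x + (t' - T))| ≤ 1 / 2 ^ L := by
        have e : (m * x + y) - (m * x + (t' - T)) = t - t' := by rw [ht]; ring
        rw [e]
        have g1 := htI.1; have g2 := htI.2; have g3 := ht'.1; have g4 := ht'.2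
        rw [add_div] at g2 g4
        rw [abs_le]
        constructor <;> linarith
      obtain ⟨N, hN1, hN2⟩ := jump' (w := w) hd hNN (by linarith [htI.2]) (by linarith [ht'.2])
      rw [Set.mem_iUnion₂]
      refine ⟨m, hm, ?_⟩
      rw [Set.mem_iUnion₂]
      refine ⟨N, by rw [Finset.mem_range]; omega, ?_⟩
      have h6 := abs_le.1 hN2
      constructor <;> linarith [h6.1, h6.2]
  have hfin : volume (((⋃ a ∈ A, Set.Ico ((a : ℝ) / 2 ^ L - T) (((a : ℝ) + 1) / 2 ^ L - T)) ∪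
      {s + 1 / 2 ^ l}) ∪ ⋃ m ∈ B, ⋃ N ∈ Finset.range (Nm + 1),
      Set.Icc (Real.log (N : ℝ) - m * x - 1 / 2 ^ L) (Real.log (N : ℝ) - m * x + 1 / 2 ^ L)) ≠ ⊤ := by
    refine (measure_union_lt_top (measure_union_lt_top ?_ (by simp)) ?_).ne
    · exact (measure_biUnion_lt_top A.finite_toSet fun a _ => by simp)
    · refine measure_biUnion_lt_top B.finite_toSet fun m _ => ?_
      exact measure_biUnion_lt_top (Finset.range (Nm + 1)).finite_toSet fun N _ => by simp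
  have h1 := hq.trans (measureReal_mono hsub hfin)
  have h2 := (measureReal_union_le (μ := volume)
    ((⋃ a ∈ A, Set.Ico ((a : ℝ) / 2 ^ L - T) (((a : ℝ) + 1) / 2 ^ L - T)) ∪ {s + 1 / 2 ^ l})
    (⋃ m ∈ B, ⋃ N ∈ Finset.range (Nm + 1), Set.Icc (Real.log (N : ℝ) - m * x - 1 / 2 ^ L)
        (Real.log (N : ℝ) - m * x + 1 / 2 ^ L)))
  have h3 := (measureReal_union_le (μ := volume)
    (⋃ a ∈ A, Set.Ico ((a : ℝ) / 2 ^ L - T) (((a : ℝ) + 1) / 2 ^ L - T)) {s + 1 / 2 ^ l})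
  have h4 : volume.real ({s + 1 / 2 ^ l} : Set ℝ) = 0 := by simp [measureReal_def]
  have h5 : volume.real (⋃ a ∈ A, Set.Ico ((a : ℝ) / 2 ^ L - T) (((a : ℝ) + 1) / 2 ^ L - T)) ≤
      A.card * (1 / 2 ^ L) := by
    refine (measureReal_biUnion_finset_le A _).trans (le_of_eq ?_)
    have : ∀ a ∈ A, volume.real (Set.Ico ((a : ℝ) / 2 ^ L - T) (((a : ℝ) + 1) / 2 ^ L - T)) =
        1 / 2 ^ L := by
      intro a _
      rw [Real.volume_real_Ico_of_le (by gcongr; linarith)]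
      rw [add_div]; ring
    rw [Finset.sum_congr rfl this, Finset.sum_const, nsmul_eq_mul]
  have h6 : volume.real (⋃ m ∈ B, ⋃ N ∈ Finset.range (Nm + 1),
      Set.Icc (Real.log (N : ℝ) - m * x - 1 / 2 ^ L) (Real.log (N : ℝ) - m * x + 1 / 2 ^ L)) ≤
      M * ((Nm + 1) * (2 * (1 / 2 ^ L))) := by
    refine (measureReal_biUnion_finset_le B _).trans ?_
    have hb : ∀ m ∈ B, volume.real (⋃ N ∈ Finset.range (Nm + 1),
        Set.Icc (Real.log (N : ℝ) - m * x - 1 / 2 ^ L) (Real.log (N : ℝ) - m * x + 1 / 2 ^ L)) ≤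
        (Nm + 1) * (2 * (1 / 2 ^ L)) := by
      intro m _
      refine (measureReal_biUnion_finset_le _ _).trans (le_of_eq ?_)
      have : ∀ N ∈ Finset.range (Nm + 1), volume.real (Set.Icc (Real.log (N : ℝ) - m * x - 1 / 2 ^ L)
          (Real.log (N : ℝ) - m * x + 1 / 2 ^ L)) = 2 * (1 / 2 ^ L) := by
        intro N _
        rw [Real.volume_real_Icc_of_le (by have : (0 : ℝ) < 1 / 2 ^ L := by positivity
                                           linarith)]
        ring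
      rw [Finset.sum_congr rfl this, Finset.sum_const, Finset.card_range, nsmul_eq_mul]
      push_cast
      ring
    refine (Finset.sum_le_sum hb).trans (le_of_eq ?_)
    have hcB : B.card = M := by rw [hB, Nat.card_Ico]; omega
    rw [Finset.sum_const, nsmul_eq_mul, hcB]
  have hAZ : (A.card : ℝ) ≤ ∑ a ∈ I, Zb c x T M L a := by
    have : (A.card : ℝ) = ∑ a ∈ A, Zb c x T M L a := by
      rw [Finset.sum_congr rfl (fun a ha => (Finset.mem_filter.1 ha).2), Finset.sum_const,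
        nsmul_eq_mul, mul_one]
    rw [this]
    exact Finset.sum_le_sum_of_subset_of_nonneg (Finset.filter_subset _ _)
      fun a _ _ => Zb_nonneg _ _ _ _ _ _
  have hNmr : (Nm : ℝ) ≤ Real.exp w := Nat.floor_le (Real.exp_pos _).le
  have h7 : 2 * q * (1 / 2 ^ l) ≤
      A.card * (1 / 2 ^ L) + M * ((Nm + 1) * (2 * (1 / 2 ^ L))) := by linarith
  have h8 : 2 * q * 2 ^ (L - l) ≤ A.card + 2 * (M * ((Nm : ℝ) + 1)) := by
    have h9 := mul_le_mul_of_nonneg_right h7 h2L.le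
    have e1 : 2 * q * (1 / 2 ^ l) * 2 ^ L = 2 * q * (2 : ℝ) ^ (L - l) := by
      rw [hpow]; field_simp
    have e2 : (A.card * (1 / 2 ^ L) + M * ((Nm + 1) * (2 * (1 / 2 ^ L)))) * 2 ^ L =
        A.card + 2 * (M * ((Nm : ℝ) + 1)) := by field_simp
    rw [e1, e2] at h9
    exact h9
  have h10 : 2 * ((M : ℝ) * ((Nm : ℝ) + 1)) ≤ 2 * M * (Real.exp w + 1) := by
    have hM0 : (0 : ℝ) ≤ M := Nat.cast_nonneg _
    nlinarith
  linarith

end Pool.Agent.V1193.PG
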