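import Pool.Agent.V1193.PG.C

set_option autoImplicit false

/-! Prime values in short intervals of indices. -/

namespace Pool.Agent.V1193.PG

open Finset MeasureTheory Filter Topology

/-- the number of hits is at most the number of prime values -/
lemma count2 {α : ℝ} (hα : 0 < α) {c T D R j1 : ℕ} (hD : 1 ≤ D) (hR : 2 ≤ R) {t : ℝ} (ht : 0 ≤ t) (J : ℕ) :
    ∑ j ∈ range J, Zb c (Real.log α) T (D * R ^ (j + j1)) (R ^ (j + j1 + 1))
      ⌊t * 2 ^ R ^ (j + j1 + 1)⌋₊ ≤
      ((NQ c α (Real.exp (t - T)) ∩ Set.Ico (D * R ^ j1) (D * R ^ (J + j1))).ncard : ℝ) := by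
  induction J with
  | zero => simp
  | succ J ih =>
    rw [Finset.sum_range_succ]
    set F := NQ c α (Real.exp (t - T)) ∩ Set.Ico (D * R ^ j1) (D * R ^ (J + j1)) with hF
    set F' := NQ c α (Real.exp (t - T)) ∩ Set.Ico (D * R ^ j1) (D * R ^ (J + 1 + j1)) with hF'
    have hFf : F.Finite := (Set.finite_Ico _ _).subset Set.inter_subset_right
    have hF'f : F'.Finite := (Set.finite_Ico _ _).subset Set.inter_subset_right
    have hpow : D * R ^ (J + 1 + j1) = R * (D * R ^ (J + j1)) := by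
      rw [show J + 1 + j1 = J + j1 + 1 by ring, pow_succ]; ring
    have hMpos : 0 < D * R ^ (J + j1) := Nat.mul_pos (by omega) (Nat.pow_pos (by omega))
    have hMlow : D * R ^ j1 ≤ D * R ^ (J + j1) :=
      Nat.mul_le_mul_left _ (Nat.pow_le_pow_right (by omega) (by omega))
    have h2M : 2 * (D * R ^ (J + j1)) ≤ D * R ^ (J + 1 + j1) := by
      rw [hpow]; exact Nat.mul_le_mul_right _ hR
    have hsub : F ⊆ F' := by
      rintro m ⟨h1, h2, h3⟩
      exact ⟨h1, h2, by omega⟩
    rcases Zb01 c (Real.log α) T (D * R ^ (J + j1)) (R ^ (J + j1 + 1))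
      ⌊t * 2 ^ R ^ (J + j1 + 1)⌋₊ with h | h
    · rw [h, add_zero]
      refine ih.trans ?_
      exact_mod_cast Set.ncard_le_ncard hsub hF'f
    · rw [h]
      obtain ⟨m, m1, m2, m3⟩ := hit hα ht h
      have hmF : m ∉ F := fun hm => by
        have := hm.2.2
        omega
      have h5 : (insert m F).ncard = F.ncard + 1 := Set.ncard_insert_of_notMem hmF hFf
      have h6 : (insert m F).ncard ≤ F'.ncard := by
        refine Set.ncard_le_ncard ?_ hF'f
        rintro k (rfl | hk)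
        · exact ⟨m3, by omega, by omega⟩
        · exact hsub hk
      have h7 : (F.ncard : ℝ) + 1 ≤ F'.ncard := by
        rw [h5] at h6
        exact_mod_cast h6
      linarith

/-- runs of blocks -/
theorem runs {α : ℝ} {c D R : ℕ} {q : ℝ} (hR : 2 ≤ R) (hq : 0 < q)
    {u T j0 : ℕ} (h : ∀ j ≥ j0, ∀ a' : ℕ,
      u * 2 ^ R ^ j ≤ a' → a' < (u + 1) * 2 ^ R ^ j →
      q * (2 : ℝ) ^ (R ^ (j + 1) - R ^ j) ≤
        ∑ a ∈ Ico (a' * 2 ^ (R ^ (j + 1) - R ^ j)) ((a' + 1) * 2 ^ (R ^ (j + 1) - R ^ j)),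
          Zb c (Real.log α) T (D * R ^ j) (R ^ (j + 1)) a) :
    ∀ᵐ t : ℝ, (u : ℝ) ≤ t → t < u + 1 → ∃ J0 : ℕ, ∀ J ≥ J0, ∀ k : ℕ,
      32 / q ^ 2 * Real.log (J + 2) ≤ k →
      q / 2 * k < ∑ j ∈ range k, Zb c (Real.log α) T (D * R ^ (j + J)) (R ^ (j + J + 1))
        ⌊t * 2 ^ R ^ (j + J + 1)⌋₊ := by
  set bad : ℕ × ℕ → Set ℝ := fun z => {t : ℝ | ((u : ℝ) ≤ t ∧ t < u + 1 ∧
    ∑ j ∈ range z.2, Zb c (Real.log α) T (D * R ^ (j + z.1)) (R ^ (j + z.1 + 1))
        ⌊t * 2 ^ R ^ (j + z.1 + 1)⌋₊ ≤ q / 2 * z.2) ∧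
      j0 ≤ z.1 ∧ 32 / q ^ 2 * Real.log (z.1 + 2) ≤ z.2} with hbad
  have hbd : ∀ z : ℕ × ℕ, volume (bad z) ≤
      ENNReal.ofReal (1 / ((z.1 : ℝ) + 2) ^ 2 * Real.exp (-(q ^ 2 / 16)) ^ z.2) := by
    rintro ⟨J, k⟩
    by_cases hc : j0 ≤ J ∧ 32 / q ^ 2 * Real.log ((J : ℝ) + 2) ≤ k
    · have hdev := Pool.Agent.V60.LD.dev_measure (b := 2) (u := u) (s := 0) (by norm_num) (q := q)
        (R := 1) (ε := q / 2) one_pos (by positivity) (fun j => R ^ (j + J))
        (fun i j hij => Nat.pow_le_pow_right (by omega) (by omega)) (Nat.zero_le _)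
        (fun j a => Zb c (Real.log α) T (D * R ^ (j + J)) (R ^ (j + J + 1)) a)
        (fun _ _ => Zb_nonneg _ _ _ _ _ _) (fun _ _ => Zb_le _ _ _ _ _ _)
        (fun j a' h1 h2 => by
          have h3 := h (j + J) (by omega) a' (by simpa using h1) (by simpa using h2)
          rw [show j + 1 + J = j + J + 1 by ring]
          push_cast
          exact h3) k
      refine le_trans (measure_mono ?_) (hdev.trans (ENNReal.ofReal_le_ofReal ?_))
      · rintro t ⟨⟨h1, h2, h3⟩, _⟩
        refine ⟨by simpa using h1, by simpa using h2, ?_⟩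
        refine le_trans (le_of_eq ?_) (h3.trans (le_of_eq ?_))
        · refine Finset.sum_congr rfl fun j _ => ?_
          rw [show j + 1 + J = j + J + 1 by ring]
          push_cast
          rfl
        · ring
      · have hJ2 : (0 : ℝ) < (J : ℝ) + 2 := by positivity
        have e1 : Real.exp (-((q / 2) ^ 2 / (2 * 1 ^ 2)) * k) =
            Real.exp (-(q ^ 2 / 16) * k) * Real.exp (-(q ^ 2 / 16)) ^ k := by
          rw [← Real.exp_nat_mul, ← Real.exp_add]
          ring_nf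
        rw [e1]
        refine mul_le_mul_of_nonneg_right ?_ (by positivity)
        have h4 : 2 * Real.log ((J : ℝ) + 2) ≤ q ^ 2 / 16 * k := by
          have h5 := mul_le_mul_of_nonneg_left hc.2 (by positivity : 0 ≤ q ^ 2 / 16)
          have e2 : q ^ 2 / 16 * (32 / q ^ 2 * Real.log ((J : ℝ) + 2)) =
              2 * Real.log ((J : ℝ) + 2) := by field_simp; norm_num
          linarith
        calc Real.exp (-(q ^ 2 / 16) * k) ≤ Real.exp (-(2 * Real.log ((J : ℝ) + 2))) :=
              Real.exp_le_exp.2 (by linarith)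
          _ = 1 / ((J : ℝ) + 2) ^ 2 := by
            rw [Real.exp_neg, mul_comm, Real.exp_mul, Real.exp_log hJ2, one_div]
            norm_num
    · have : bad (J, k) = ∅ := by
        ext t
        simp only [hbad, Set.mem_ofPred_eq, Set.mem_empty_iff_false, iff_false]
        rintro ⟨_, h2⟩
        exact hc h2
      rw [this, measure_empty]
      exact zero_le
  have hsum : ∑' z : ℕ × ℕ, volume (bad z) ≠ ⊤ := by
    refine ne_top_of_le_ne_top ?_ (ENNReal.tsum_le_tsum hbd)
    refine Summable.tsum_ofReal_ne_top ?_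
    have h1 : Summable fun J : ℕ => 1 / ((J : ℝ) + 2) ^ 2 := by
      have h2 : Summable fun J : ℕ => 1 / (J : ℝ) ^ 2 := Real.summable_one_div_nat_pow.2 (by norm_num)
      have h3 := (summable_nat_add_iff 2).2 h2
      refine h3.congr fun J => ?_
      push_cast
      rfl
    have h2 : Summable fun k : ℕ => Real.exp (-(q ^ 2 / 16)) ^ k := by
      refine summable_geometric_of_lt_one (Real.exp_pos _).le ?_
      rw [Real.exp_lt_one_iff]
      have : 0 < q ^ 2 / 16 := by positivity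
      linarith
    exact h1.mul_of_nonneg h2 (fun _ => by positivity) (fun _ => by positivity)
  filter_upwards [ae_finite_setOfPred_mem hsum] with t ht h1 h2
  obtain ⟨B, hB⟩ := (ht.image Prod.fst).bddAbove
  refine ⟨max (B + 1) j0, fun J hJ k hk => ?_⟩
  by_contra hcon
  have hmem : (J, k) ∈ {z : ℕ × ℕ | t ∈ bad z} :=
    ⟨⟨h1, h2, not_lt.1 hcon⟩, (le_max_right _ _).trans hJ, hk⟩
  have h3 := hB (Set.mem_image_of_mem Prod.fst hmem)
  have h4 := (le_max_left (B + 1) j0).trans hJ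
  simp only at h3
  omega

end Pool.Agent.V1193.PG
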