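import Pool.Agent.V1193.PE.R
import Pool.Agent.V1193.PG.D

set_option autoImplicit false

/-! Prime values in short intervals of indices: the theorem. -/

namespace Pool.Agent.V1193.PG

open Finset MeasureTheory Filter Topology
open Pool.Agent.V1193.PE (Dio Hoh scale ae_shift)

/-- **Prime values in all intervals `[X, Y]` with `Y ≥ X (log X) ^ C`.** -/
theorem spread {α : ℝ} (hα : 1 < α) (hdio : Dio α) (hoh : Hoh) (c : ℕ) :
    ∃ (c0 : ℝ) (C0 : ℕ), 0 < c0 ∧ ∀ᵐ b : ℝ, 0 < b → ∀ᶠ X : ℕ in atTop, ∀ Y : ℕ,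
      (X : ℝ) * Real.log X ^ C0 ≤ Y →
      c0 * Real.log ((Y : ℝ) / X) ≤ ((NQ c α b ∩ Set.Icc X Y).ncard : ℝ) := by
  have hα0 : 0 < α := by linarith
  obtain ⟨D, R, q, hD, hR, hq, hq1, hset⟩ := setup hα hdio hoh c
  have hRr : (2 : ℝ) ≤ R := by exact_mod_cast hR
  have hlR : 0 < Real.log R := Real.log_pos (by linarith)
  have hl2 : Real.log 2 ≤ Real.log R := Real.log_le_log (by norm_num) hRr
  have hl2' := Real.log_two_gt_d9
  obtain ⟨C0, hC0⟩ := exists_nat_gt (128 * Real.log R / q ^ 2)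
  have hC0' : (0 : ℝ) < C0 := lt_trans (by positivity) hC0
  refine ⟨q / (4 * Real.log R), C0, by positivity, ?_⟩
  refine Pool.Agent.V1193.FM.ae_exp' (Q := fun b => ∀ᶠ X : ℕ in atTop, ∀ Y : ℕ,
      (X : ℝ) * Real.log X ^ C0 ≤ Y →
      q / (4 * Real.log R) * Real.log ((Y : ℝ) / X) ≤ ((NQ c α b ∩ Set.Icc X Y).ncard : ℝ)) ?_
  refine ae_shift fun u T => ?_
  obtain ⟨j0, hj0⟩ := hset u T
  filter_upwards [runs hR hq hj0] with t ht h1 h2
  obtain ⟨J0, hJ0⟩ := ht h1 h2
  have ht0 : 0 ≤ t := le_trans (Nat.cast_nonneg u) h1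
  have t1 : Tendsto (fun X : ℕ => Real.log (X : ℝ)) atTop atTop :=
    Real.tendsto_log_atTop.comp tendsto_natCast_atTop_atTop
  have t2 : Tendsto (fun X : ℕ => Real.log (Real.log (X : ℝ))) atTop atTop :=
    Real.tendsto_log_atTop.comp t1
  filter_upwards [t1.eventually_ge_atTop (Real.log D + (J0 + 1) * Real.log R),
    t1.eventually_ge_atTop 3, t2.eventually_ge_atTop (4 * Real.log R / C0),
    eventually_ge_atTop D, eventually_ge_atTop 1] with X x1 x2 x3 x4 x5 Y hY
  have hX0 : (0 : ℝ) < X := by exact_mod_cast x5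
  have hD0 : (0 : ℝ) ≤ Real.log D := Real.log_natCast_nonneg D
  have hlX0 : 0 < Real.log X := by linarith
  have hpw : 1 ≤ Real.log X ^ C0 := one_le_pow₀ (by linarith)
  have hXY : (X : ℝ) ≤ Y := le_trans (by nlinarith) hY
  have hXYn : X ≤ Y := by exact_mod_cast hXY
  have hY0 : (0 : ℝ) < Y := by linarith
  obtain ⟨a1, a2, a3, a4⟩ := scale hD hR x4
  obtain ⟨b1, b2, b3, b4⟩ := scale hD hR (x4.trans hXYn)
  set I := Nat.log R (X / D) with hI
  set K := Nat.log R (Y / D) with hK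
  clear_value I K
  set lam := Real.log ((Y : ℝ) / X) with hlam
  have hlam1 : lam = Real.log Y - Real.log X := Real.log_div hY0.ne' hX0.ne'
  have hlam2 : C0 * Real.log (Real.log X) ≤ lam := by
    have h5 : Real.log ((X : ℝ) * Real.log X ^ C0) ≤ Real.log Y :=
      Real.log_le_log (by positivity) hY
    rw [Real.log_mul hX0.ne' (by positivity), Real.log_pow] at h5
    linarith
  have hlam3 : 4 * Real.log R ≤ lam := by
    rw [div_le_iff₀ hC0'] at x3
    linarith
  have hk1 : lam ≤ ((K : ℝ) - I + 1) * Real.log R := by linarith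
  have hk2 : lam / (2 * Real.log R) ≤ (K : ℝ) - I - 1 := by
    rw [div_le_iff₀ (by positivity)]
    nlinarith
  have hk3 : (I : ℝ) + 1 ≤ K := by
    have : 0 < lam / (2 * Real.log R) := by
      have : 0 < lam := by linarith
      positivity
    linarith
  have hk4 : I + 1 ≤ K := by exact_mod_cast hk3
  obtain ⟨k, rfl⟩ : ∃ k, K = k + (I + 1) := ⟨K - (I + 1), by omega⟩
  have hk5 : lam / (2 * Real.log R) ≤ k := by
    push_cast at hk2
    linarith
  have hIX : (I : ℝ) * (1 / 2) ≤ Real.log X := by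
    have : (I : ℝ) * (1 / 2) ≤ I * Real.log R :=
      mul_le_mul_of_nonneg_left (by linarith) (Nat.cast_nonneg I)
    linarith
  have hJ2 : ((I + 1 : ℕ) : ℝ) + 2 ≤ Real.log X ^ 2 := by
    push_cast
    nlinarith
  have hlog : Real.log (((I + 1 : ℕ) : ℝ) + 2) ≤ 2 * Real.log (Real.log X) := by
    calc Real.log (((I + 1 : ℕ) : ℝ) + 2) ≤ Real.log (Real.log X ^ 2) :=
          Real.log_le_log (by positivity) hJ2
      _ = _ := by rw [Real.log_pow]; push_cast; ring
  have hll : 0 ≤ Real.log (Real.log X) := Real.log_nonneg (by linarith)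
  have hcond : 32 / q ^ 2 * Real.log (((I + 1 : ℕ) : ℝ) + 2) ≤ k := by
    refine le_trans ?_ hk5
    rw [le_div_iff₀ (by positivity)]
    have h6 : 32 / q ^ 2 * Real.log (((I + 1 : ℕ) : ℝ) + 2) ≤
        32 / q ^ 2 * (2 * Real.log (Real.log X)) := mul_le_mul_of_nonneg_left hlog (by positivity)
    have h7 : 32 / q ^ 2 * (2 * Real.log (Real.log X)) * (2 * Real.log R) =
        128 * Real.log R / q ^ 2 * Real.log (Real.log X) := by ring
    have h8 : 128 * Real.log R / q ^ 2 * Real.log (Real.log X) ≤ C0 * Real.log (Real.log X) :=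
      mul_le_mul_of_nonneg_right hC0.le hll
    have h9 := mul_le_mul_of_nonneg_right h6 (by positivity : 0 ≤ 2 * Real.log R)
    linarith
  have hJ0' : J0 ≤ I + 1 := by
    by_contra hcon
    push Not at hcon
    have h10 : ((I + 1 : ℕ) : ℝ) + 1 ≤ J0 := by exact_mod_cast hcon
    push_cast at h10
    have : ((I : ℝ) + 1) * Real.log R < (J0 + 1) * Real.log R :=
      mul_lt_mul_of_pos_right (by linarith) hlR
    linarith
  have hmain := hJ0 (I + 1) hJ0' k hcond
  have hcnt := count2 hα0 (c := c) (T := T) (D := D) (R := R) (j1 := I + 1) hD hR ht0 k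
  have hle : ((NQ c α (Real.exp (t - T)) ∩ Set.Ico (D * R ^ (I + 1)) (D * R ^ (k + (I + 1)))).ncard : ℝ) ≤
      ((NQ c α (Real.exp (t - T)) ∩ Set.Icc X Y).ncard : ℝ) := by
    have : (NQ c α (Real.exp (t - T)) ∩ Set.Ico (D * R ^ (I + 1)) (D * R ^ (k + (I + 1)))).ncard ≤
        (NQ c α (Real.exp (t - T)) ∩ Set.Icc X Y).ncard := by
      refine Set.ncard_le_ncard ?_ ((Set.finite_Icc _ _).subset Set.inter_subset_right)
      rintro m ⟨m1, m2, m3⟩
      exact ⟨m1, by omega, by omega⟩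
    exact_mod_cast this
  have hfin : q / (4 * Real.log R) * lam ≤ q / 2 * k := by
    have h11 := mul_le_mul_of_nonneg_left hk5 (by positivity : 0 ≤ q / 2)
    have e : q / 2 * (lam / (2 * Real.log R)) = q / (4 * Real.log R) * lam := by
      field_simp
      ring
    linarith
  exact hfin.trans (hmain.le.trans (hcnt.trans hle))

end Pool.Agent.V1193.PG
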